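import Mathlib

set_option autoImplicit false

namespace Pool.Agent.Helper321.CU

section
variable {O : Type*} [CommRing O] (s2 : O →+* O)
  (tors : ∀ x : O, 2 * x = 0 → x = 0)
  (frob : ∀ f : O, ∃ g : O, f * f = s2 f + 2 * g)

include tors frob in
theorem sq_form (d d' : O) (hd : d * d' = 1) (h2 : s2 d = d) :
    ∃ al ka : O, d = 1 + 2 * al ∧ d * d = 1 + 8 * ka := by
  obtain ⟨g, hg⟩ := frob d
  rw [h2] at hg
  have e1 : d = 1 + 2 * (g * d') := by linear_combination d' * hg - (d - 1) * hd
  have e2 : s2 (g * d') = g * d' := by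
    have : s2 d = s2 (1 + 2 * (g * d')) := congrArg s2 e1
    rw [h2, map_add, map_mul, map_one] at this
    have h3 : s2 2 = 2 := map_ofNat s2 2
    rw [h3] at this
    have h4 := tors (s2 (g * d') - g * d') (by linear_combination e1 - this)
    exact sub_eq_zero.1 h4
  obtain ⟨g', hg'⟩ := frob (g * d')
  rw [e2] at hg'
  refine ⟨g * d', g * d' + g', e1, ?_⟩
  linear_combination (d + 1 + 2 * (g * d')) * e1 + 4 * hg'

theorem Oabs (s1 rh : O →+* O) (ep : O →+* ZMod 257)
    (tors : ∀ x : O, 2 * x = 0 → x = 0)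
    (frob : ∀ f : O, ∃ g : O, f * f = s2 f + 2 * g)
    (hs : ∀ x, s1 (s1 x) = s2 x) (hep : ∀ x, ep (s1 x) = ep x)
    (ta nu ta' nu' : O) (hta : ta * ta' = 1) (hnu : nu * nu' = 1)
    (h1 : ta * s1 ta = -1) (h2 : s1 nu = nu) (h3 : rh ta = ta) (h4 : rh nu = nu)
    (e1 : ep (ta * nu) = 1) (e2 : ep nu * ep nu = -1) :
    ∃ a m h a' m' h' : O,
      a + a' + 2 * a * a' + 8 * m * m' = 0 ∧
      m + m' + 2 * (a * m' + a' * m) = 0 ∧
      h + h' + 8 * h * h' = 0 ∧
      s1 a = -1 - a ∧ s1 m = m ∧ s1 h = h ∧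
      rh a = a ∧ rh m = m ∧ rh h = h ∧
      2 * ep a = -1 ∧ 4 * ep m = 1 ∧ 4 * ep h = -1 := by
  have tors4 : ∀ x : O, 4 * x = 0 → x = 0 := by
    intro x hx
    apply tors; apply tors
    linear_combination hx
  have tors8 : ∀ x : O, 8 * x = 0 → x = 0 := by
    intro x hx
    apply tors; apply tors4
    linear_combination hx
  have t1 : s1 ta = -ta' := by linear_combination ta' * h1 - s1 ta * hta
  have t1' : s1 ta' = -ta := by
    have : s1 (ta * ta') = 1 := by rw [hta, map_one]
    rw [map_mul, t1] at this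
    linear_combination (-ta) * this - s1 ta' * hta
  have n1' : s1 nu' = nu' := by
    have : s1 (nu * nu') = 1 := by rw [hnu, map_one]
    rw [map_mul, h2] at this
    linear_combination nu' * this - s1 nu' * hnu
  have r1' : rh ta' = ta' := by
    have : rh (ta * ta') = 1 := by rw [hta, map_one]
    rw [map_mul, h3] at this
    linear_combination ta' * this - rh ta' * hta
  have r2' : rh nu' = nu' := by
    have : rh (nu * nu') = 1 := by rw [hnu, map_one]
    rw [map_mul, h4] at this
    linear_combination nu' * this - rh nu' * hnu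
  have s2d : s2 (ta * nu) = ta * nu := by
    rw [← hs, map_mul, t1, h2, map_mul, map_neg, t1', h2]; ring
  have s2n : s2 nu = nu := by rw [← hs, h2, h2]
  have s2d' : s2 (ta' * nu') = ta' * nu' := by
    rw [← hs, map_mul, t1', n1', map_mul, map_neg, t1, n1']; ring
  have s2n' : s2 nu' = nu' := by rw [← hs, n1', n1']
  have hd : (ta * nu) * (ta' * nu') = 1 := by
    linear_combination (nu * nu') * hta + hnu
  have hd' : (ta' * nu') * (ta * nu) = 1 := by
    linear_combination (nu * nu') * hta + hnu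
  have hnu2 : nu' * nu = 1 := by linear_combination hnu
  obtain ⟨al, ka, a1, a2⟩ := sq_form s2 tors frob (ta * nu) (ta' * nu') hd s2d
  obtain ⟨al', ka', a1', a2'⟩ := sq_form s2 tors frob (ta' * nu') (ta * nu) hd' s2d'
  obtain ⟨_, kn, _, b2⟩ := sq_form s2 tors frob nu nu' hnu s2n
  obtain ⟨_, kn', _, b2'⟩ := sq_form s2 tors frob nu' nu hnu2 s2n'
  -- m = δ' (κ - κ_ν)
  obtain ⟨m, hm⟩ : ∃ m, m = (ta' * nu') * (ka - kn) := ⟨_, rfl⟩
  obtain ⟨m', hm'⟩ : ∃ m', m' = (ta * nu) * (ka' - kn') := ⟨_, rfl⟩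
  have c1 : 8 * m = ta * nu - ta' * nu := by
    rw [hm]
    linear_combination (-(ta' * nu')) * a2 + (ta' * nu') * b2 + (ta * nu) * hd - ta' * nu * hnu
  have c1' : 8 * m' = ta' * nu' - ta * nu' := by
    rw [hm']
    linear_combination (-(ta * nu)) * a2' + (ta * nu) * b2' + (ta' * nu') * hd - ta * nu' * hnu
  have q1 : (1 + 2 * (al - 2 * m) + 4 * m) * (1 + 2 * (al' - 2 * m') + 4 * m') = 1 := by
    have : (1 + 2 * al) * (1 + 2 * al') = 1 := by rw [← a1, ← a1', hd]
    linear_combination this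
  have q2 : (1 + 2 * (al - 2 * m) - 4 * m) * (1 + 2 * (al' - 2 * m') - 4 * m') = 1 := by
    have u1 : 1 + 2 * (al - 2 * m) - 4 * m = ta' * nu := by linear_combination -a1 - c1
    have u2 : 1 + 2 * (al' - 2 * m') - 4 * m' = ta * nu' := by linear_combination -a1' - c1'
    rw [u1, u2]
    linear_combination (nu * nu') * hta + hnu
  have hn4 : (nu * nu) * (nu' * nu') = 1 := by
    linear_combination (nu * nu' + 1) * hnu
  have sm : s1 m = m := by
    have : s1 (8 * m) = s1 (ta * nu - ta' * nu) := congrArg s1 c1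
    rw [map_sub, map_mul, map_mul, map_mul, t1, t1', h2, map_ofNat s1 8] at this
    exact sub_eq_zero.1 (tors8 _ (by linear_combination this - c1))
  have sd : s1 (ta * nu) = -(ta' * nu) := by rw [map_mul, t1, h2]; ring
  have sa : s1 (al - 2 * m) = -1 - (al - 2 * m) := by
    have h5 : s1 (ta * nu) = s1 (1 + 2 * al) := congrArg s1 a1
    rw [sd, map_add, map_mul, map_one, map_ofNat s1 2] at h5
    rw [map_sub, map_mul, map_ofNat s1 2, sm]
    exact sub_eq_zero.1 (tors _ (by linear_combination -h5 - a1 - c1))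
  have sh : s1 kn = kn := by
    have h5 : s1 (nu * nu) = s1 (1 + 8 * kn) := congrArg s1 b2
    rw [map_mul, h2, map_add, map_mul, map_one, map_ofNat s1 8] at h5
    exact sub_eq_zero.1 (tors8 _ (by linear_combination b2 - h5))
  have rm : rh m = m := by
    have : rh (8 * m) = rh (ta * nu - ta' * nu) := congrArg rh c1
    rw [map_sub, map_mul, map_mul, map_mul, h3, r1', h4, map_ofNat rh 8] at this
    exact sub_eq_zero.1 (tors8 _ (by linear_combination this - c1))
  have ra : rh (al - 2 * m) = al - 2 * m := by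
    have h5 : rh (ta * nu) = rh (1 + 2 * al) := congrArg rh a1
    rw [map_mul, h3, h4, map_add, map_mul, map_one, map_ofNat rh 2] at h5
    rw [map_sub, map_mul, map_ofNat rh 2, rm]
    exact sub_eq_zero.1 (tors _ (by linear_combination a1 - h5))
  have rk : rh kn = kn := by
    have h5 : rh (nu * nu) = rh (1 + 8 * kn) := congrArg rh b2
    rw [map_mul, h4, map_add, map_mul, map_one, map_ofNat rh 8] at h5
    exact sub_eq_zero.1 (tors8 _ (by linear_combination b2 - h5))
  have two_ne : (2 : ZMod 257) ≠ 0 := by decide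
  have : Fact (Nat.Prime 257) := ⟨by norm_num⟩
  have em : 4 * ep m = 1 := by
    have h5 : ep (8 * m) = ep (ta * nu + s1 (ta * nu)) := by
      rw [sd, c1]; congr 1; ring
    rw [map_add, hep, e1, map_mul, map_ofNat ep 8] at h5
    apply mul_left_cancel₀ two_ne
    linear_combination h5
  have ea : 2 * ep (al - 2 * m) = -1 := by
    have h5 : ep (ta * nu) = ep (1 + 2 * al) := congrArg ep a1
    rw [e1, map_add, map_mul, map_one, map_ofNat ep 2] at h5
    rw [map_sub, map_mul, map_ofNat ep 2]
    linear_combination -h5 - em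
  have eh : 4 * ep kn = -1 := by
    have h5 : ep (nu * nu) = ep (1 + 8 * kn) := congrArg ep b2
    rw [map_mul, e2, map_add, map_mul, map_one, map_ofNat ep 8] at h5
    apply mul_left_cancel₀ two_ne
    linear_combination -h5
  refine ⟨al - 2 * m, m, kn, al' - 2 * m', m', kn', ?_, ?_, ?_, sa, sm, sh, ra, rm, rk, ea, em, eh⟩
  · apply tors4
    linear_combination q1 + q2
  · apply tors8
    linear_combination q1 - q2
  · apply tors8
    have : (1 + 8 * kn) * (1 + 8 * kn') = 1 := by rw [← b2, ← b2', hn4]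
    linear_combination this

end

end Pool.Agent.Helper321.CU
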