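import Mathlib

set_option autoImplicit false

namespace Pool.Agent.Helper321.CU

variable {C D : Type*} [CommRing C] [CommRing D]

def vp (x w : C) : C := (1 - x) * (1 + x ^ 2) * (1 + w ^ 2)

def xi (x w : C) : C := x * ((1 + x ^ 2) + w ^ 3 * (1 - x ^ 2))

theorem vp_sq (x w : C) (hx : x ^ 4 = 1) (hw : w ^ 4 = 1) : vp x w * vp x w = 8 * vp x w := by
  unfold vp; grind

theorem vp_w (x w : C) (hw : w ^ 4 = 1) : (1 - w ^ 2) * vp x w = 0 := by
  unfold vp; grind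

theorem xi_sq (x w : C) (hx : x ^ 4 = 1) (hw : w ^ 4 = 1) :
    (1 - w ^ 2) * (xi x w * xi x w) = 4 * (1 - w ^ 2) := by
  unfold xi; grind

def bcore (x w a m h : C) : C := (1 + h * vp x w) * (1 + (1 - w ^ 2) * (a + m * xi x w))

theorem bcore_mul (x w a m h a' m' h' : C) (hx : x ^ 4 = 1) (hw : w ^ 4 = 1)
    (r1 : a + a' + 2 * a * a' + 8 * m * m' = 0)
    (r2 : m + m' + 2 * (a * m' + a' * m) = 0)
    (r3 : h + h' + 8 * h * h' = 0) :
    bcore x w a m h * bcore x w a' m' h' = 1 := by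
  have e1 : (1 + h * vp x w) * (1 + h' * vp x w) = 1 := by
    have := vp_sq x w hx hw
    linear_combination (h * h') * this + vp x w * r3
  have e2 : (1 + (1 - w ^ 2) * (a + m * xi x w)) * (1 + (1 - w ^ 2) * (a' + m' * xi x w)) = 1 := by
    have h1 := xi_sq x w hx hw
    have h2 : (1 - w ^ 2) * (1 - w ^ 2) = 2 * (1 - w ^ 2) := by linear_combination hw
    linear_combination (a + m * xi x w) * (a' + m' * xi x w) * h2 + 2 * m * m' * h1 +
      (1 - w ^ 2) * r1 + (1 - w ^ 2) * xi x w * r2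
  unfold bcore
  linear_combination (1 + (1 - w ^ 2) * (a + m * xi x w)) * (1 + (1 - w ^ 2) * (a' + m' * xi x w))
    * e1 + e2

def bfun (x w a m h : C) : C := x * bcore x w a m h

def bfun' (x w a m h : C) : C := x ^ 3 * bcore x w a m h

theorem bfun_mul (x w a m h a' m' h' : C) (hx : x ^ 4 = 1) (hw : w ^ 4 = 1)
    (r1 : a + a' + 2 * a * a' + 8 * m * m' = 0)
    (r2 : m + m' + 2 * (a * m' + a' * m) = 0)
    (r3 : h + h' + 8 * h * h' = 0) :
    bfun x w a m h * bfun' x w a' m' h' = 1 := by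
  have := bcore_mul x w a m h a' m' h' hx hw r1 r2 r3
  unfold bfun bfun'
  linear_combination x ^ 4 * this + hx

theorem map_bfun (F : C →+* D) (x w a m h : C) :
    F (bfun x w a m h) = bfun (F x) (F w) (F a) (F m) (F h) := by
  simp only [bfun, bcore, vp, xi, map_mul, map_add, map_sub, map_one, map_pow]

theorem map_bfun' (F : C →+* D) (x w a m h : C) :
    F (bfun' x w a m h) = bfun' (F x) (F w) (F a) (F m) (F h) := by
  simp only [bfun', bcore, vp, xi, map_mul, map_add, map_sub, map_one, map_pow]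

theorem bfun_twist (x w a m h : C) (hw : w ^ 4 = 1) :
    bfun (x * w ^ 2) w (-1 - a) m h = bfun x w a m h := by
  have e1 : vp (x * w ^ 2) w = vp x w := by unfold vp; grind
  have e2 : (1 - w ^ 2) * xi (x * w ^ 2) w = -(1 - w ^ 2) * xi x w := by unfold xi; grind
  unfold bfun bcore
  rw [e1]
  have e3 : w ^ 2 * (1 + (1 - w ^ 2) * (-1 - a + m * xi (x * w ^ 2) w)) =
      1 + (1 - w ^ 2) * (a + m * xi x w) := by
    linear_combination w ^ 2 * m * e2 + (1 + a + m * xi x w) * hw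
  linear_combination x * (1 + h * vp x w) * e3

def p1 (k : C) : C := (1 - k) * (1 + k ^ 2)

def p2 (e w k : C) : C :=
  (1 - k ^ 2) * ((1 + w ^ 2) * (1 - e) + (1 - w ^ 2) * (1 - k * w ^ 3))

def sfun (e w k al be c1 c2 c3 c4 : C) : C :=
  (1 + (c1 + c2 * al) * p1 k) * (1 + (c3 + c4 * be) * p2 e w k)

theorem p1_sq (k : C) (hk : k ^ 4 = 1) : p1 k * p1 k = 4 * p1 k := by
  unfold p1; grind

theorem p2_sq (e w k : C) (he : e ^ 2 = 1) (hw : w ^ 4 = 1) (hk : k ^ 4 = 1) :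
    p2 e w k * p2 e w k = 8 * p2 e w k := by
  unfold p2; grind

theorem al_sq (t : C) (ht : t ^ 32 = 1) :
    (t ^ 2 + t ^ 30) * (t ^ 2 + t ^ 30) * p1 (t ^ 8) = 2 * p1 (t ^ 8) := by
  unfold p1; grind

theorem be_sq (e w t : C) (ht : t ^ 32 = 1) :
    (t ^ 4 + t ^ 28) * (t ^ 4 + t ^ 28) * p2 e w (t ^ 8) = 2 * p2 e w (t ^ 8) := by
  have h : (t ^ 4 + t ^ 28) * (t ^ 4 + t ^ 28) * (1 - (t ^ 8) ^ 2) = 2 * (1 - (t ^ 8) ^ 2) := by
    grind
  unfold p2
  linear_combination ((1 + w ^ 2) * (1 - e) + (1 - w ^ 2) * (1 - t ^ 8 * w ^ 3)) * h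

theorem sfun_mul (e w k al be c1 c2 c3 c4 : C) (he : e ^ 2 = 1) (hw : w ^ 4 = 1)
    (hk : k ^ 4 = 1) (hal : al * al * p1 k = 2 * p1 k) (hbe : be * be * p2 e w k = 2 * p2 e w k)
    (r1 : 2 * c1 + 4 * c1 ^ 2 - 8 * c2 ^ 2 = 0) (r2 : 2 * c3 + 8 * c3 ^ 2 - 16 * c4 ^ 2 = 0) :
    sfun e w k al be c1 c2 c3 c4 * sfun e w k al be c1 (-c2) c3 (-c4) = 1 := by
  have h1 := p1_sq k hk
  have h2 := p2_sq e w k he hw hk
  have e1 : (1 + (c1 + c2 * al) * p1 k) * (1 + (c1 + -c2 * al) * p1 k) = 1 := by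
    linear_combination (c1 + c2 * al) * (c1 - c2 * al) * h1 - 4 * c2 ^ 2 * hal + p1 k * r1
  have e2 : (1 + (c3 + c4 * be) * p2 e w k) * (1 + (c3 + -c4 * be) * p2 e w k) = 1 := by
    linear_combination (c3 + c4 * be) * (c3 - c4 * be) * h2 - 8 * c4 ^ 2 * hbe + p2 e w k * r2
  unfold sfun
  linear_combination (1 + (c3 + c4 * be) * p2 e w k) * (1 + (c3 + -c4 * be) * p2 e w k) * e1 + e2

theorem map_sfun (F : C →+* D) (e w k al be c1 c2 c3 c4 : C) :
    F (sfun e w k al be c1 c2 c3 c4) =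
      sfun (F e) (F w) (F k) (F al) (F be) (F c1) (F c2) (F c3) (F c4) := by
  simp only [sfun, p1, p2, map_mul, map_add, map_sub, map_one, map_pow]

theorem sfun_twist (e w k al be c1 c2 c3 c4 : C) (hw : w ^ 4 = 1) :
    sfun (e * w ^ 2) w k al be c1 c2 c3 c4 = sfun e w k al be c1 c2 c3 c4 := by
  have : p2 (e * w ^ 2) w k = p2 e w k := by unfold p2; grind
  unfold sfun
  rw [this]

theorem sfun_star (e w k al be c1 c2 c3 c4 : C) (hw : w ^ 4 = 1) (hk : k ^ 4 = 1) :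
    sfun e (w ^ 3) (k ^ 3) al be c1 c2 c3 c4 = sfun e w k al be c1 c2 c3 c4 := by
  have h1 : p1 (k ^ 3) = p1 k := by unfold p1; grind
  have h2 : p2 e (w ^ 3) (k ^ 3) = p2 e w k := by unfold p2; grind
  unfold sfun
  rw [h1, h2]

theorem congr_key (e w k al be r : C) (he : e ^ 2 = 1) (hw : w ^ 4 = 1) (hk : k ^ 4 = 1)
    (hr : 2 * r = 1) :
    bfun (e * k) w (-r) (r ^ 2) (-r ^ 2) = k * sfun e w k al be (-r) 0 (-r ^ 2) 0 := by
  unfold bfun bcore sfun vp xi p1 p2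
  grind

end Pool.Agent.Helper321.CU
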