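import Mathlib
import Pool.Agent.Helper321.CU.Abs

set_option autoImplicit false

namespace Pool.Agent.Helper321.CU

open Finset

theorem zg_induction {G : Type*} [Monoid G] {P : MonoidAlgebra ℤ G → Prop}
    (hof : ∀ g, P (MonoidAlgebra.of ℤ G g)) (h0 : P 0)
    (hadd : ∀ x y, P x → P y → P (x + y)) (hneg : ∀ x, P x → P (-x)) :
    ∀ x, P x := by
  intro x
  induction x using MonoidAlgebra.induction_linear with
  | zero => exact h0
  | add x y hx hy => exact hadd x y hx hy
  | single g n =>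
    induction n using Int.induction_on with
    | zero => simpa using h0
    | succ n ih =>
      rw [MonoidAlgebra.single_add]
      exact hadd _ _ ih (hof g)
    | pred n ih =>
      have e : (MonoidAlgebra.single g (-(n : ℤ) - 1) : MonoidAlgebra ℤ G) =
          MonoidAlgebra.single g (-(n : ℤ)) + -(MonoidAlgebra.of ℤ G g) := by
        rw [sub_eq_add_neg, MonoidAlgebra.single_add, MonoidAlgebra.single_neg g 1]
        rfl
      rw [e]
      exact hadd _ _ ih (hneg _ (hof g))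

abbrev MM := Multiplicative (ZMod 257)
abbrev ZM := MonoidAlgebra ℤ MM

noncomputable def T (i : ZMod 257) : ZM := MonoidAlgebra.of ℤ MM (Multiplicative.ofAdd i)

theorem T_add (i j : ZMod 257) : T (i + j) = T i * T j := by
  simp only [T, ofAdd_add, map_mul]

theorem T_zero : T 0 = 1 := by
  simp only [T, ofAdd_zero, map_one]

theorem T_mul_nat (j : ZMod 257) (n : ℕ) : T (n * j) = T j ^ n := by
  induction n with
  | zero => simp [T_zero]
  | succ n ih => rw [Nat.cast_succ, add_mul, one_mul, T_add, ih, pow_succ]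

noncomputable def NM : ZM := ∑ i : ZMod 257, T i

theorem T_mul_NM (i : ZMod 257) : T i * NM = NM := by
  rw [NM, mul_sum]
  simp_rw [← T_add]
  exact Equiv.sum_comp (Equiv.addLeft i) T

theorem zm_induction {P : ZM → Prop} (hT : ∀ i, P (T i)) (h0 : P 0)
    (hadd : ∀ x y, P x → P y → P (x + y)) (hneg : ∀ x, P x → P (-x)) : ∀ x, P x :=
  zg_induction (fun g => hT (Multiplicative.toAdd g)) h0 hadd hneg

noncomputable def aug : ZM →+* ℤ := (MonoidAlgebra.lift ℤ ℤ MM 1).toRingHom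

@[simp] theorem aug_T (i : ZMod 257) : aug (T i) = 1 := by
  simp [aug, T]

theorem aug_NM : aug NM = 257 := by
  simp [NM, map_sum]

theorem mul_NM (f : ZM) : f * NM = (aug f : ZM) * NM := by
  induction f using zm_induction with
  | hT i => rw [T_mul_NM, aug_T, Int.cast_one, one_mul]
  | h0 => simp
  | hadd x y hx hy => rw [add_mul, hx, hy, map_add, Int.cast_add, add_mul]
  | hneg x hx => rw [neg_mul, hx, map_neg, Int.cast_neg, neg_mul]

theorem coeff_T (i j : ZMod 257) :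
    (T i).coeff (Multiplicative.ofAdd j) = if i = j then 1 else 0 := by
  classical
  rw [T, MonoidAlgebra.of_apply, MonoidAlgebra.coeff_single, Finsupp.single_apply]
  rfl

theorem coeff_NM (j : ZMod 257) : NM.coeff (Multiplicative.ofAdd j) = 1 := by
  rw [NM, MonoidAlgebra.coeff_sum, Finset.sum_apply']
  simp only [coeff_T, Finset.sum_ite_eq', Finset.mem_univ, if_true]

theorem coeff_int_mul (n : ℤ) (f : ZM) (j : MM) : ((n : ZM) * f).coeff j = n * f.coeff j := by
  induction n using Int.induction_on with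
  | zero => simp
  | succ n ih =>
    rw [Int.cast_add, add_mul, MonoidAlgebra.coeff_add, Finsupp.add_apply, ih]
    push_cast; ring_nf
  | pred n ih =>
    rw [Int.cast_sub, sub_mul, MonoidAlgebra.coeff_sub, Finsupp.sub_apply, ih]
    push_cast; ring_nf

theorem mem_iff (f : ZM) : f ∈ Ideal.span {NM} ↔
    ∀ j, f.coeff (Multiplicative.ofAdd j) = f.coeff (Multiplicative.ofAdd 0) := by
  rw [Ideal.mem_span_singleton']
  constructor
  · rintro ⟨c, rfl⟩ j
    rw [mul_NM, coeff_int_mul, coeff_int_mul, coeff_NM, coeff_NM]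
  · intro h
    refine ⟨(f.coeff (Multiplicative.ofAdd 0) : ℤ), ?_⟩
    ext j
    have := coeff_NM (Multiplicative.toAdd j)
    rw [ofAdd_toAdd] at this
    rw [coeff_int_mul, this, mul_one]
    exact (h (Multiplicative.toAdd j)).symm

theorem tors_ZM (f : ZM) (h : 2 * f ∈ Ideal.span {NM}) : f ∈ Ideal.span {NM} := by
  rw [mem_iff] at h ⊢
  intro j
  have := h j
  have e : (2 : ZM) = ((2 : ℤ) : ZM) := by norm_num
  rw [e, coeff_int_mul, coeff_int_mul] at this
  linarith

theorem coeff_T_mul (i j : ZMod 257) (f : ZM) :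
    (T i * f).coeff (Multiplicative.ofAdd j) = f.coeff (Multiplicative.ofAdd (j - i)) := by
  rw [T, MonoidAlgebra.of_apply, MonoidAlgebra.coeff_single_mul_apply, one_mul]
  congr 1
  rw [← ofAdd_neg, ← ofAdd_add]
  congr 1
  ring

theorem nzd_ZM (i : ZMod 257) (hi : i ≠ 0) (f : ZM) (h : (T i - 1) * f ∈ Ideal.span {NM}) :
    f ∈ Ideal.span {NM} := by
  rw [mem_iff] at h ⊢
  have key : ∀ j, f.coeff (Multiplicative.ofAdd (j - i)) - f.coeff (Multiplicative.ofAdd j) =
      ((T i - 1) * f).coeff (Multiplicative.ofAdd 0) := by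
    intro j
    rw [← h j, sub_mul, one_mul, MonoidAlgebra.coeff_sub, Finsupp.sub_apply, coeff_T_mul]
  obtain ⟨d, hd⟩ : ∃ d, d = ((T i - 1) * f).coeff (Multiplicative.ofAdd 0) := ⟨_, rfl⟩
  rw [← hd] at key
  have hsum : (∑ j : ZMod 257, (f.coeff (Multiplicative.ofAdd (j - i)) -
      f.coeff (Multiplicative.ofAdd j))) = 257 * d := by
    rw [Finset.sum_congr rfl (fun j _ => key j)]
    simp
  have hz : (∑ j : ZMod 257, (f.coeff (Multiplicative.ofAdd (j - i)) -
      f.coeff (Multiplicative.ofAdd j))) = 0 := by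
    rw [Finset.sum_sub_distrib, sub_eq_zero]
    exact Equiv.sum_comp (Equiv.subRight i) (fun j => f.coeff (Multiplicative.ofAdd j))
  have hd0 : d = 0 := by linarith
  have step : ∀ n : ℕ, f.coeff (Multiplicative.ofAdd (-(n * i))) =
      f.coeff (Multiplicative.ofAdd 0) := by
    intro n
    induction n with
    | zero => simp
    | succ n ih =>
      have := key (-(n * i))
      have e : -((n + 1 : ℕ) * i) = -(n * i) - i := by push_cast; ring
      rw [e, ← ih]
      linarith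
  intro j
  have : Fact (Nat.Prime 257) := ⟨by norm_num⟩
  have := step (-j / i).val
  rw [ZMod.natCast_zmod_val, div_mul_cancel₀ _ hi, neg_neg] at this
  exact this

/-- the ring of cyclotomic integers, as the quotient of the group ring by the norm element -/
abbrev OO := ZM ⧸ (Ideal.span {NM} : Ideal ZM)

noncomputable def mk : ZM →+* OO := Ideal.Quotient.mk _

theorem mk_eq_zero (f : ZM) : mk f = 0 ↔ f ∈ Ideal.span {NM} := Ideal.Quotient.eq_zero_iff_mem

theorem mk_NM : mk NM = 0 := by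
  rw [mk_eq_zero]; exact Ideal.subset_span rfl

theorem mk_surj (x : OO) : ∃ f, mk f = x := Ideal.Quotient.mk_surjective x

theorem tors_OO (x : OO) (h : 2 * x = 0) : x = 0 := by
  obtain ⟨f, rfl⟩ := mk_surj x
  rw [mk_eq_zero]
  apply tors_ZM
  rw [← mk_eq_zero, map_mul, map_ofNat]
  exact h

/-- the endomorphism `T i ↦ T (r i)` -/
noncomputable def sig (r : ZMod 257) : ZM →+* ZM :=
  MonoidAlgebra.mapDomainRingHom ℤ (AddMonoidHom.toMultiplicative (AddMonoidHom.mulLeft r))

@[simp] theorem sig_T (r i : ZMod 257) : sig r (T i) = T (r * i) := by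
  simp [sig, T]

theorem sig_NM (r : ZMod 257) (hr : r ≠ 0) : sig r NM = NM := by
  have : Fact (Nat.Prime 257) := ⟨by norm_num⟩
  rw [NM, map_sum]
  simp_rw [sig_T]
  exact Equiv.sum_comp (Equiv.mulLeft₀ r hr) T

noncomputable def sg (r : ZMod 257) (hr : r ≠ 0) : OO →+* OO :=
  Ideal.Quotient.lift _ (mk.comp (sig r)) (by
    intro a ha
    rw [Ideal.mem_span_singleton'] at ha
    obtain ⟨c, rfl⟩ := ha
    rw [RingHom.comp_apply, map_mul, sig_NM r hr, map_mul, mk_NM, mul_zero])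

theorem sg_mk (r : ZMod 257) (hr : r ≠ 0) (f : ZM) : sg r hr (mk f) = mk (sig r f) := rfl

noncomputable def ep : OO →+* ZMod 257 :=
  Ideal.Quotient.lift _ ((Int.castRingHom (ZMod 257)).comp aug) (by
    intro a ha
    rw [Ideal.mem_span_singleton'] at ha
    obtain ⟨c, rfl⟩ := ha
    rw [RingHom.comp_apply, map_mul, aug_NM, map_mul]
    have : Int.castRingHom (ZMod 257) 257 = 0 := by decide
    rw [this, mul_zero])

theorem ep_mk (f : ZM) : ep (mk f) = (aug f : ZMod 257) := rfl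

theorem aug_sig (r : ZMod 257) (f : ZM) : aug (sig r f) = aug f := by
  induction f using zm_induction with
  | hT i => simp
  | h0 => simp
  | hadd x y hx hy => rw [map_add, map_add, hx, hy, map_add]
  | hneg x hx => rw [map_neg, map_neg, hx, map_neg]

theorem sig_sig (r s : ZMod 257) (f : ZM) : sig r (sig s f) = sig (r * s) f := by
  induction f using zm_induction with
  | hT i => simp [mul_assoc]
  | h0 => simp
  | hadd x y hx hy => simp only [map_add, hx, hy]
  | hneg x hx => simp only [map_neg, hx]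

theorem frob_ZM (f : ZM) : ∃ g : ZM, f * f = sig 2 f + 2 * g := by
  induction f using zm_induction with
  | hT i => exact ⟨0, by rw [sig_T, two_mul, T_add, mul_zero, add_zero]⟩
  | h0 => exact ⟨0, by simp⟩
  | hadd x y hx hy =>
    obtain ⟨g, hg⟩ := hx
    obtain ⟨g', hg'⟩ := hy
    exact ⟨g + g' + x * y, by rw [map_add]; linear_combination hg + hg'⟩
  | hneg x hx =>
    obtain ⟨g, hg⟩ := hx
    exact ⟨g + sig 2 x, by rw [map_neg]; linear_combination hg⟩

theorem frob_OO (h2 : (2 : ZMod 257) ≠ 0) (x : OO) : ∃ g : OO, x * x = sg 2 h2 x + 2 * g := by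
  obtain ⟨f, rfl⟩ := mk_surj x
  obtain ⟨g, hg⟩ := frob_ZM f
  refine ⟨mk g, ?_⟩
  rw [← map_mul, hg, sg_mk, map_add, map_mul, map_ofNat]

noncomputable def ss (j : ZMod 257) : OO := mk (T (129 * j) - T (-(129 * j)))

noncomputable def qz (r : ℕ) (j : ZMod 257) : ZM :=
  T (-(129 * j * (r - 1))) * ∑ l ∈ range r, T j ^ l

noncomputable def qq (r : ℕ) (j : ZMod 257) : OO := mk (qz r j)

theorem half : (129 : ZMod 257) + 129 = 1 := by decide

theorem ss_eq (j : ZMod 257) : T (129 * j) - T (-(129 * j)) = T (-(129 * j)) * (T j - 1) := by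
  rw [mul_sub, ← T_add, mul_one]
  congr 2
  linear_combination j * half

theorem ss_mul_qq (r : ℕ) (j : ZMod 257) : ss j * qq r j = ss (r * j) := by
  rw [ss, ss, qq, ← map_mul, ss_eq, qz]
  congr 1
  have h1 : (T j - 1) * ∑ l ∈ range r, T j ^ l = T (r * j) - 1 := by
    rw [mul_comm, geom_sum_mul, T_mul_nat]
  calc T (-(129 * j)) * (T j - 1) * (T (-(129 * j * (r - 1))) * ∑ l ∈ range r, T j ^ l)
      = (T (-(129 * j)) * T (-(129 * j * (r - 1)))) * ((T j - 1) * ∑ l ∈ range r, T j ^ l) := by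
        ring
    _ = T (-(129 * (r * j))) * (T (r * j) - 1) := by
        rw [h1, ← T_add]
        congr 2
        ring
    _ = _ := (ss_eq _).symm

theorem ss_cancel (j : ZMod 257) (hj : j ≠ 0) (x y : OO) (h : ss j * x = ss j * y) : x = y := by
  rw [← sub_eq_zero] at h ⊢
  rw [← mul_sub] at h
  obtain ⟨f, hf⟩ := mk_surj (x - y)
  rw [← hf] at h ⊢
  rw [ss, ss_eq, ← map_mul] at h
  rw [mk_eq_zero]
  apply nzd_ZM j hj
  rw [← mk_eq_zero]
  have : T (129 * j) * (T (-(129 * j)) * (T j - 1) * f) = (T j - 1) * f := by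
    rw [mul_assoc, ← mul_assoc, ← T_add, add_neg_cancel, T_zero, one_mul]
  rw [← this, map_mul, h, mul_zero]

theorem ss_neg (j : ZMod 257) : ss (-j) = -ss j := by
  rw [ss, ss, ← map_neg]
  congr 1
  rw [mul_neg, neg_neg, neg_sub]

theorem qq_neg (r : ℕ) (j : ZMod 257) (hj : j ≠ 0) : qq r (-j) = qq r j := by
  apply ss_cancel j hj
  have h1 := ss_mul_qq r (-j)
  rw [mul_neg, ss_neg, ss_neg] at h1
  rw [ss_mul_qq]
  linear_combination -h1

theorem sg_qq (c : ZMod 257) (hc : c ≠ 0) (r : ℕ) (j : ZMod 257) :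
    sg c hc (qq r j) = qq r (c * j) := by
  rw [qq, sg_mk, qq]
  congr 1
  rw [qz, qz, map_mul, map_sum, sig_T]
  simp_rw [map_pow, sig_T]
  congr 2
  ring

theorem qq_mul_inv (r r' : ℕ) (hr : (r' : ZMod 257) * r = 1) (j : ZMod 257) (hj : j ≠ 0) :
    qq r j * qq r' (r * j) = 1 := by
  apply ss_cancel j hj
  rw [← mul_assoc, ss_mul_qq, ss_mul_qq, ← mul_assoc, hr, one_mul, mul_one]

theorem ep_qq (r : ℕ) (j : ZMod 257) : ep (qq r j) = r := by
  rw [qq, ep_mk, qz, map_mul, map_sum, aug_T]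
  simp


/-- the unit with `τ σ(τ) = -1` -/
noncomputable def tau : OO := ∏ i ∈ range 8, qq 60 (2 ^ i)
noncomputable def tau' : OO := ∏ i ∈ range 8, qq 30 (60 * 2 ^ i)
noncomputable def nuu : OO := ∏ i ∈ range 16, qq 81 (60 ^ i)
noncomputable def nuu' : OO := ∏ i ∈ range 16, qq 165 (81 * 60 ^ i)

theorem two_pow_ne (i : ℕ) : (2 : ZMod 257) ^ i ≠ 0 := by
  have h : (2 : ZMod 257) ≠ 0 := by decide
  have : Fact (Nat.Prime 257) := ⟨by norm_num⟩
  exact pow_ne_zero i h

theorem sixty_pow_ne (i : ℕ) : (60 : ZMod 257) ^ i ≠ 0 := by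
  have h : (60 : ZMod 257) ≠ 0 := by decide
  have : Fact (Nat.Prime 257) := ⟨by norm_num⟩
  exact pow_ne_zero i h

theorem tau_tau' : tau * tau' = 1 := by
  rw [tau, tau', ← prod_mul_distrib]
  apply prod_eq_one
  intro i _
  have := qq_mul_inv 60 30 (by decide) (2 ^ i) (two_pow_ne i)
  exact_mod_cast this

theorem nuu_nuu' : nuu * nuu' = 1 := by
  rw [nuu, nuu', ← prod_mul_distrib]
  apply prod_eq_one
  intro i _
  have := qq_mul_inv 81 165 (by decide) (60 ^ i) (sixty_pow_ne i)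
  exact_mod_cast this

theorem sixty_ne : (60 : ZMod 257) ≠ 0 := by decide
theorem two_ne : (2 : ZMod 257) ≠ 0 := by decide
theorem neg_one_ne : (-1 : ZMod 257) ≠ 0 := by decide

theorem tau_sg : tau * sg 60 sixty_ne tau = -1 := by
  rw [tau, map_prod, ← prod_mul_distrib]
  simp_rw [sg_qq]
  have key : ∀ n : ℕ, ss 1 * ∏ i ∈ range n, (qq 60 (2 ^ i) * qq 60 (60 * 2 ^ i)) = ss (2 ^ n) := by
    intro n
    induction n with
    | zero => simp
    | succ n ih =>
      rw [prod_range_succ, ← mul_assoc, ih, ← mul_assoc]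
      have h1 := ss_mul_qq 60 (2 ^ n)
      have h2 := ss_mul_qq 60 (60 * 2 ^ n)
      push_cast at h1 h2
      rw [h1, h2, ← mul_assoc, pow_succ']
      congr 1
  have h8 := key 8
  have e : (2 : ZMod 257) ^ 8 = -1 := by decide
  rw [e, ss_neg] at h8
  have one_ne : (1 : ZMod 257) ≠ 0 := by decide
  apply ss_cancel 1 one_ne
  rw [h8]; ring

theorem nuu_sg : sg 60 sixty_ne nuu = nuu := by
  have h1 := prod_range_succ (fun i => qq 81 (60 ^ i)) 16
  have h2 := prod_range_succ' (fun i => qq 81 (60 ^ i)) 16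
  have e16 : (60 : ZMod 257) ^ 16 = -1 := by decide
  have e1 : qq 81 (60 ^ 16) = qq 81 (60 ^ 0) := by
    rw [e16, pow_zero]
    exact qq_neg _ _ (by decide)
  have h3 : sg 60 sixty_ne nuu = ∏ i ∈ range 16, qq 81 (60 ^ (i + 1)) := by
    rw [nuu, map_prod]
    simp_rw [sg_qq, pow_succ']
  rw [h3]
  rw [h1] at h2
  have inv := qq_mul_inv 81 165 (by decide) (60 ^ 0) (sixty_pow_ne 0)
  rw [nuu]
  rw [e1] at h2
  obtain ⟨X, hX⟩ : ∃ X, X = ∏ i ∈ range 16, qq 81 ((60 : ZMod 257) ^ i) := ⟨_, rfl⟩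
  obtain ⟨Y, hY⟩ : ∃ Y, Y = ∏ i ∈ range 16, qq 81 ((60 : ZMod 257) ^ (i + 1)) := ⟨_, rfl⟩
  rw [← hX, ← hY] at h2 ⊢
  linear_combination (-(qq 165 (((81 : ℕ) : ZMod 257) * 60 ^ 0))) * h2 + (X - Y) * inv

theorem tau_neg : sg (-1) neg_one_ne tau = tau := by
  rw [tau, map_prod]
  apply prod_congr rfl
  intro i _
  rw [sg_qq, neg_one_mul, qq_neg _ _ (two_pow_ne i)]

theorem nuu_neg : sg (-1) neg_one_ne nuu = nuu := by
  rw [nuu, map_prod]
  apply prod_congr rfl
  intro i _
  rw [sg_qq, neg_one_mul, qq_neg _ _ (sixty_pow_ne i)]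

theorem ep_sg (c : ZMod 257) (hc : c ≠ 0) (x : OO) : ep (sg c hc x) = ep x := by
  obtain ⟨f, rfl⟩ := mk_surj x
  rw [sg_mk, ep_mk, ep_mk, aug_sig]

theorem sg_sg (x : OO) : sg 60 sixty_ne (sg 60 sixty_ne x) = sg 2 two_ne x := by
  obtain ⟨f, rfl⟩ := mk_surj x
  rw [sg_mk, sg_mk, sg_mk, sig_sig]
  congr 2

theorem ep_tau : ep tau = 60 ^ 8 := by
  rw [tau, map_prod]
  simp_rw [ep_qq]
  rw [prod_const, card_range]
  rfl

theorem ep_nuu : ep nuu = 81 ^ 16 := by
  rw [nuu, map_prod]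
  simp_rw [ep_qq]
  rw [prod_const, card_range]
  rfl

theorem OO_main : ∃ a m h a' m' h' : OO,
      a + a' + 2 * a * a' + 8 * m * m' = 0 ∧
      m + m' + 2 * (a * m' + a' * m) = 0 ∧
      h + h' + 8 * h * h' = 0 ∧
      sg 60 sixty_ne a = -1 - a ∧ sg 60 sixty_ne m = m ∧ sg 60 sixty_ne h = h ∧
      sg (-1) neg_one_ne a = a ∧ sg (-1) neg_one_ne m = m ∧ sg (-1) neg_one_ne h = h ∧
      2 * ep a = -1 ∧ 4 * ep m = 1 ∧ 4 * ep h = -1 := by
  refine Oabs (sg 2 two_ne) (sg 60 sixty_ne) (sg (-1) neg_one_ne) ep tors_OO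
    (frob_OO two_ne) sg_sg (fun x => ep_sg _ _ x) tau nuu tau' nuu' tau_tau' nuu_nuu'
    tau_sg nuu_sg tau_neg nuu_neg ?_ ?_
  · rw [map_mul, ep_tau, ep_nuu]; decide
  · rw [ep_nuu]; decide

end Pool.Agent.Helper321.CU
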