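import Mathlib

set_option autoImplicit false

namespace Pool.Agent.Helper321.CU

/-- the additive map `ZMod 2 → ZMod 4`, multiplication by two -/
def dbl : ZMod 2 →+ ZMod 4 where
  toFun a := if a = 0 then 0 else 2
  map_zero' := by decide
  map_add' := by decide

theorem dbl_add_self (a : ZMod 2) : dbl a + dbl a = 0 := by
  revert a; decide

/-- reduction modulo two -/
def par : ZMod 64 →+* ZMod 2 := ZMod.castHom (by norm_num) _

/-- The group `P` of order 512: `(a,b,c)` stands for `e^a w^b y^c`. -/
@[ext] structure PP where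
  a : ZMod 2
  b : ZMod 4
  c : ZMod 64
deriving DecidableEq

namespace PP

instance : Mul PP := ⟨fun s t => ⟨s.a + t.a, s.b + t.b + dbl (t.a * par s.c), s.c + t.c⟩⟩
instance : One PP := ⟨⟨0, 0, 0⟩⟩
instance : Inv PP := ⟨fun s => ⟨-s.a, -s.b + dbl (s.a * par s.c), -s.c⟩⟩

@[simp] theorem mul_a (s t : PP) : (s * t).a = s.a + t.a := rfl
@[simp] theorem mul_b (s t : PP) : (s * t).b = s.b + t.b + dbl (t.a * par s.c) := rfl
@[simp] theorem mul_c (s t : PP) : (s * t).c = s.c + t.c := rfl
@[simp] theorem one_a : (1 : PP).a = 0 := rfl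
@[simp] theorem one_b : (1 : PP).b = 0 := rfl
@[simp] theorem one_c : (1 : PP).c = 0 := rfl
@[simp] theorem inv_a (s : PP) : (s⁻¹).a = -s.a := rfl
@[simp] theorem inv_b (s : PP) : (s⁻¹).b = -s.b + dbl (s.a * par s.c) := rfl
@[simp] theorem inv_c (s : PP) : (s⁻¹).c = -s.c := rfl

instance : Group PP where
  mul_assoc r s t := by
    ext
    · simp [add_assoc]
    · simp only [mul_a, mul_b, mul_c, map_add, mul_add, add_mul]
      abel
    · simp [add_assoc]
  one_mul s := by ext <;> simp
  mul_one s := by ext <;> simp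
  inv_mul_cancel s := by
    ext
    · simp only [mul_a, inv_a, one_a, neg_add_cancel]
    · simp only [mul_b, inv_b, inv_c, map_neg, mul_neg, one_b]
      abel
    · simp only [mul_c, inv_c, one_c, neg_add_cancel]

instance : Finite PP := by
  have : Function.Injective (fun s : PP => (s.a, s.b, s.c)) := by
    intro s t h
    simp only [Prod.mk.injEq] at h
    ext
    · exact h.1
    · exact h.2.1
    · exact h.2.2
  exact Finite.of_injective _ this

end PP

/-- sign character on `ZMod 2` -/
def sgn (a : ZMod 2) : ZMod 257 := if a = 0 then 1 else -1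

theorem sgn_add (a a' : ZMod 2) : sgn (a + a') = sgn a * sgn a' := by
  revert a a'; decide

/-- the character of `ZMod 64` with values in the 32nd roots of unity -/
def rt (c : ZMod 64) : ZMod 257 := 60 ^ c.val

theorem sixty_pow : (60 : ZMod 257) ^ 64 = 1 := by decide +kernel

theorem rt_add (c c' : ZMod 64) : rt (c + c') = rt c * rt c' := by
  unfold rt
  rw [ZMod.val_add, ← pow_add, ← pow_eq_pow_mod _ sixty_pow]

/-- the action character -/
def chi : PP →* ZMod 257 where
  toFun s := sgn s.a * rt s.c
  map_one' := by decide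
  map_mul' s t := by
    simp only [PP.mul_a, PP.mul_c, sgn_add, rt_add]
    ring

/-- The group `G = C_257 ⋊ P`. -/
@[ext] structure GG where
  m : ZMod 257
  q : PP
deriving DecidableEq

namespace GG

instance : Mul GG := ⟨fun s t => ⟨s.m + chi s.q * t.m, s.q * t.q⟩⟩
instance : One GG := ⟨⟨0, 1⟩⟩
instance : Inv GG := ⟨fun s => ⟨-(chi s.q⁻¹ * s.m), s.q⁻¹⟩⟩

@[simp] theorem mul_m (s t : GG) : (s * t).m = s.m + chi s.q * t.m := rfl
@[simp] theorem mul_q (s t : GG) : (s * t).q = s.q * t.q := rfl
@[simp] theorem one_m : (1 : GG).m = 0 := rfl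
@[simp] theorem one_q : (1 : GG).q = 1 := rfl
@[simp] theorem inv_m (s : GG) : (s⁻¹).m = -(chi s.q⁻¹ * s.m) := rfl
@[simp] theorem inv_q (s : GG) : (s⁻¹).q = s.q⁻¹ := rfl

instance : Group GG where
  mul_assoc r s t := by
    ext1
    · simp only [mul_m, mul_q, map_mul]
      ring
    · simp [mul_assoc]
  one_mul s := by ext1 <;> simp
  mul_one s := by ext1 <;> simp
  inv_mul_cancel s := by ext1 <;> simp

instance : Finite GG := by
  have : Function.Injective (fun s : GG => (s.m, s.q)) := by
    intro s t h
    simp only [Prod.mk.injEq] at h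
    ext1
    · exact h.1
    · exact h.2
  exact Finite.of_injective _ this

end GG

/-- projection onto `P` -/
def prj : GG →* PP where
  toFun s := s.q
  map_one' := rfl
  map_mul' _ _ := rfl

/-- the section of the projection -/
def sec : PP →* GG where
  toFun s := ⟨0, s⟩
  map_one' := rfl
  map_mul' s t := by ext1 <;> simp

/-- inclusion of the normal subgroup of order 257 -/
def incM : Multiplicative (ZMod 257) →* GG where
  toFun i := ⟨Multiplicative.toAdd i, 1⟩
  map_one' := rfl
  map_mul' i j := by ext1 <;> simp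

@[simp] theorem prj_sec (s : PP) : prj (sec s) = s := rfl
@[simp] theorem prj_incM (i : Multiplicative (ZMod 257)) : prj (incM i) = 1 := rfl

theorem eq_incM_sec (g : GG) : g = incM (Multiplicative.ofAdd g.m) * sec (prj g) := by
  ext1 <;> simp [incM, sec, prj]

theorem sec_incM (s : PP) (i : Multiplicative (ZMod 257)) :
    sec s * incM i = incM (Multiplicative.ofAdd (chi s * Multiplicative.toAdd i)) * sec s := by
  ext1 <;> simp [incM, sec]

end Pool.Agent.Helper321.CU
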