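import Mathlib
import Pool.Agent.Helper321.CU.Grp
import Pool.Agent.Helper321.CU.Cyc

set_option autoImplicit false

namespace Pool.Agent.Helper321.CU

abbrev QM := Multiplicative (ZMod 257 × ZMod 4 × ZMod 4)
abbrev AM := Multiplicative (ZMod 2 × ZMod 4 × ZMod 32)
abbrev RR := MonoidAlgebra ℤ QM
abbrev SS := MonoidAlgebra ℤ AM
abbrev ZG := MonoidAlgebra ℤ GG
abbrev ZP := MonoidAlgebra ℤ PP

def r42 : ZMod 4 →+* ZMod 2 := ZMod.castHom (by norm_num) _

def m16 : ZMod 4 →+ ZMod 64 where
  toFun a := 16 * (a.val : ZMod 64)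
  map_zero' := by decide
  map_add' := by decide

def m8 : ZMod 4 →+ ZMod 32 where
  toFun a := 8 * (a.val : ZMod 32)
  map_zero' := by decide
  map_add' := by decide

def m2 : ZMod 32 →+ ZMod 64 where
  toFun a := 2 * (a.val : ZMod 64)
  map_zero' := by decide
  map_add' := by decide +kernel

theorem par_m16 (a : ZMod 4) : par (m16 a) = 0 := by revert a; decide
theorem par_m2 (a : ZMod 32) : par (m2 a) = 0 := by revert a; decide
theorem m2_m8 (a : ZMod 4) : m2 (m8 a) = m16 a := by revert a; decide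
theorem chi_fQ (a b : ZMod 4) : chi ⟨r42 a, b, m16 a⟩ = 1 := by
  revert a b; decide +kernel

/-- `(i,a,b) ↦ μ^i x^a w^b` -/
def fQ : QM →* GG where
  toFun s := ⟨(Multiplicative.toAdd s).1,
    ⟨r42 (Multiplicative.toAdd s).2.1, (Multiplicative.toAdd s).2.2,
      m16 (Multiplicative.toAdd s).2.1⟩⟩
  map_one' := by decide
  map_mul' s t := by
    ext
    · simp [chi_fQ]
    · simp
    · simp [par_m16]
    · simp

/-- `(a,b,c) ↦ e^a w^b y^(2c)` -/
def fA : AM →* PP where
  toFun s := ⟨(Multiplicative.toAdd s).1, (Multiplicative.toAdd s).2.1,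
    m2 (Multiplicative.toAdd s).2.2⟩
  map_one' := by decide
  map_mul' s t := by
    ext
    · simp
    · simp [par_m2]
    · simp

def fQA : QM →* AM where
  toFun s := Multiplicative.ofAdd (r42 (Multiplicative.toAdd s).2.1,
    (Multiplicative.toAdd s).2.2, m8 (Multiplicative.toAdd s).2.1)
  map_one' := by decide
  map_mul' s t := by
    rw [← ofAdd_add]
    congr 1
    ext <;> simp

theorem prj_fQ (s : QM) : prj (fQ s) = fA (fQA s) := by
  ext
  · rfl
  · rfl
  · exact (m2_m8 _).symm

def inQ : MM →* QM where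
  toFun i := Multiplicative.ofAdd (Multiplicative.toAdd i, 0, 0)
  map_one' := rfl
  map_mul' s t := by
    rw [← ofAdd_add]
    congr 1

theorem fQ_inQ (i : MM) : fQ (inQ i) = incM i := by
  ext
  · rfl
  · rfl
  · rfl
  · rfl

/-- conjugation by `y` on the subgroup `M × Q` -/
def thy : QM →* QM where
  toFun s := Multiplicative.ofAdd (60 * (Multiplicative.toAdd s).1, (Multiplicative.toAdd s).2.1,
    (Multiplicative.toAdd s).2.2 + 2 * (Multiplicative.toAdd s).2.1)
  map_one' := by decide
  map_mul' s t := by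
    rw [← ofAdd_add]
    congr 1
    ext
    · simp; ring
    · simp
    · simp; ring

def the : QM →* QM where
  toFun s := Multiplicative.ofAdd (-1 * (Multiplicative.toAdd s).1, (Multiplicative.toAdd s).2.1,
    (Multiplicative.toAdd s).2.2)
  map_one' := by decide
  map_mul' s t := by
    rw [← ofAdd_add]
    congr 1
    ext
    · simp; ring
    · simp
    · simp

def ay : AM →* AM where
  toFun s := Multiplicative.ofAdd ((Multiplicative.toAdd s).1,
    (Multiplicative.toAdd s).2.1 + dbl (Multiplicative.toAdd s).1, (Multiplicative.toAdd s).2.2)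
  map_one' := by decide
  map_mul' s t := by
    rw [← ofAdd_add]
    congr 1
    ext
    · simp
    · simp; ring
    · simp

def eP : PP := ⟨1, 0, 0⟩
def wP : PP := ⟨0, 1, 0⟩
def yP : PP := ⟨0, 0, 1⟩

theorem dbl_r42 (a : ZMod 4) : dbl (r42 a) = 2 * a := by revert a; decide

theorem chi_yP : chi yP = 60 := by decide
theorem chi_eP : chi eP = -1 := by decide
theorem chi_wP : chi wP = 1 := by decide

theorem yP_fQ (s : QM) : sec yP * fQ s = fQ (thy s) * sec yP := by
  ext
  · simp [sec, fQ, thy, chi_yP]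
  · simp [sec, fQ, thy, yP]
  · have : par 1 = 1 := by decide
    simp [sec, fQ, thy, yP, this, dbl_r42]
  · simp [sec, fQ, thy, yP, add_comm]

theorem eP_fQ (s : QM) : sec eP * fQ s = fQ (the s) * sec eP := by
  ext
  · simp [sec, fQ, the, chi_eP]
  · simp [sec, fQ, the, eP, add_comm]
  · simp [sec, fQ, the, eP, par_m16]
  · simp [sec, fQ, the, eP]

theorem wP_fQ (s : QM) : sec wP * fQ s = fQ s * sec wP := by
  ext
  · simp [sec, fQ, chi_wP]
  · simp [sec, fQ, wP]
  · simp [sec, fQ, wP, add_comm]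
  · simp [sec, fQ, wP]

theorem yP_fA (s : AM) : yP * fA s = fA (ay s) * yP := by
  have : par 1 = 1 := by decide
  ext
  · simp [fA, ay, yP]
  · simp [fA, ay, yP, this]
  · simp [fA, ay, yP, add_comm]

theorem pow_eP (n : ℕ) : eP ^ n = ⟨n, 0, 0⟩ := by
  induction n with
  | zero => rfl
  | succ n ih => rw [pow_succ, ih]; ext <;> simp [eP]

theorem pow_wP (n : ℕ) : wP ^ n = ⟨0, n, 0⟩ := by
  induction n with
  | zero => rfl
  | succ n ih => rw [pow_succ, ih]; ext <;> simp [wP]

theorem pow_yP (n : ℕ) : yP ^ n = ⟨0, 0, n⟩ := by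
  induction n with
  | zero => rfl
  | succ n ih => rw [pow_succ, ih]; ext <;> simp [yP]

theorem PP_eq (s : PP) : s = eP ^ s.a.val * wP ^ s.b.val * yP ^ s.c.val := by
  rw [pow_eP, pow_wP, pow_yP]
  ext <;> simp

end Pool.Agent.Helper321.CU
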