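import Mathlib
import Pool.Agent.Helper321.CU.Alg
import Pool.Agent.Helper321.CU.Homs

set_option autoImplicit false

namespace Pool.Agent.Helper321.CU

open Finset

noncomputable section

def jM : ZM →+* RR := MonoidAlgebra.mapDomainRingHom ℤ inQ
def Phi : RR →+* ZG := MonoidAlgebra.mapDomainRingHom ℤ fQ
def psi : RR →+* SS := MonoidAlgebra.mapDomainRingHom ℤ fQA
def Phi1 : SS →+* ZP := MonoidAlgebra.mapDomainRingHom ℤ fA
def pr : ZG →+* ZP := MonoidAlgebra.mapDomainRingHom ℤ prj
def se : ZP →+* ZG := MonoidAlgebra.mapDomainRingHom ℤ sec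
def II : ZM →+* ZG := MonoidAlgebra.mapDomainRingHom ℤ incM

def oG (g : GG) : ZG := MonoidAlgebra.of ℤ GG g
def oP (g : PP) : ZP := MonoidAlgebra.of ℤ PP g
def oQ (g : QM) : RR := MonoidAlgebra.of ℤ QM g
def oA (g : AM) : SS := MonoidAlgebra.of ℤ AM g

theorem oG_mul (g h : GG) : oG (g * h) = oG g * oG h := map_mul _ _ _
theorem oP_mul (g h : PP) : oP (g * h) = oP g * oP h := map_mul _ _ _
theorem oQ_mul (g h : QM) : oQ (g * h) = oQ g * oQ h := map_mul _ _ _
theorem oA_mul (g h : AM) : oA (g * h) = oA g * oA h := map_mul _ _ _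

@[simp] theorem Phi_oQ (s : QM) : Phi (oQ s) = oG (fQ s) := by simp [Phi, oQ, oG]
@[simp] theorem psi_oQ (s : QM) : psi (oQ s) = oA (fQA s) := by simp [psi, oQ, oA]
@[simp] theorem Phi1_oA (s : AM) : Phi1 (oA s) = oP (fA s) := by simp [Phi1, oA, oP]
@[simp] theorem pr_oG (s : GG) : pr (oG s) = oP (prj s) := by simp [pr, oG, oP]
@[simp] theorem se_oP (s : PP) : se (oP s) = oG (sec s) := by simp [se, oG, oP]
@[simp] theorem II_T (i : ZMod 257) : II (T i) = oG (incM (Multiplicative.ofAdd i)) := by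
  simp [II, oG, T]
@[simp] theorem jM_T (i : ZMod 257) : jM (T i) = oQ (inQ (Multiplicative.ofAdd i)) := by
  simp [jM, oQ, T]

theorem G_ind {P : ZG → Prop} (hof : ∀ g, P (oG g)) (h0 : P 0)
    (hadd : ∀ x y, P x → P y → P (x + y)) (hneg : ∀ x, P x → P (-x)) : ∀ x, P x :=
  zg_induction hof h0 hadd hneg

theorem P_ind {P : ZP → Prop} (hof : ∀ g, P (oP g)) (h0 : P 0)
    (hadd : ∀ x y, P x → P y → P (x + y)) (hneg : ∀ x, P x → P (-x)) : ∀ x, P x :=
  zg_induction hof h0 hadd hneg

theorem Q_ind {P : RR → Prop} (hof : ∀ g, P (oQ g)) (h0 : P 0)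
    (hadd : ∀ x y, P x → P y → P (x + y)) (hneg : ∀ x, P x → P (-x)) : ∀ x, P x :=
  zg_induction hof h0 hadd hneg

theorem A_ind {P : SS → Prop} (hof : ∀ g, P (oA g)) (h0 : P 0)
    (hadd : ∀ x y, P x → P y → P (x + y)) (hneg : ∀ x, P x → P (-x)) : ∀ x, P x :=
  zg_induction hof h0 hadd hneg

theorem Phi_jM (f : ZM) : Phi (jM f) = II f := by
  induction f using zm_induction with
  | hT i => rw [jM_T, Phi_oQ, II_T, fQ_inQ]
  | h0 => simp
  | hadd x y hx hy => simp only [map_add, hx, hy]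
  | hneg x hx => simp only [map_neg, hx]

theorem pr_Phi (r : RR) : pr (Phi r) = Phi1 (psi r) := by
  induction r using Q_ind with
  | hof s => rw [Phi_oQ, pr_oG, psi_oQ, Phi1_oA, prj_fQ]
  | h0 => simp
  | hadd x y hx hy => simp only [map_add, hx, hy]
  | hneg x hx => simp only [map_neg, hx]

theorem psi_jM (f : ZM) : psi (jM f) = ((aug f : ℤ) : SS) := by
  induction f using zm_induction with
  | hT i =>
    rw [jM_T, psi_oQ, aug_T, Int.cast_one]
    have : fQA (inQ (Multiplicative.ofAdd i)) = 1 := by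
      simp only [fQA, inQ, MonoidHom.coe_mk, OneHom.coe_mk, toAdd_ofAdd, map_zero]
      rfl
    rw [this]
    exact map_one _
  | h0 => simp
  | hadd x y hx hy => simp only [map_add, hx, hy, Int.cast_add]
  | hneg x hx => simp only [map_neg, hx, Int.cast_neg]

theorem pr_II (f : ZM) : pr (II f) = ((aug f : ℤ) : ZP) := by
  rw [← Phi_jM, pr_Phi, psi_jM, map_intCast]

theorem pr_se (z : ZP) : pr (se z) = z := by
  induction z using P_ind with
  | hof s => rw [se_oP, pr_oG, prj_sec]
  | h0 => simp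
  | hadd x y hx hy => simp only [map_add, hx, hy]
  | hneg x hx => simp only [map_neg, hx]

def NG : ZG := II NM

theorem pr_NG : pr NG = 257 := by
  rw [NG, pr_II, aug_NM]; norm_num

theorem oG_incM_NG (i : ZMod 257) : oG (incM (Multiplicative.ofAdd i)) * NG = NG := by
  rw [NG, ← II_T, ← map_mul, T_mul_NM]

theorem NG_oG_incM (i : ZMod 257) : NG * oG (incM (Multiplicative.ofAdd i)) = NG := by
  rw [NG, ← II_T, ← map_mul, mul_comm, T_mul_NM]

theorem chi_ne (s : PP) : chi s ≠ 0 := by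
  intro h
  have h1 : chi (s * s⁻¹) = 1 := by rw [mul_inv_cancel, map_one]
  rw [map_mul, h, zero_mul] at h1
  exact absurd h1 (by decide)

theorem oG_sec_NG (s : PP) : oG (sec s) * NG = NG * oG (sec s) := by
  have e : ∀ i : ZMod 257, oG (sec s) * II (T i) = II (T (chi s * i)) * oG (sec s) := by
    intro i
    rw [II_T, II_T, ← oG_mul, ← oG_mul, sec_incM, toAdd_ofAdd]
  rw [NG, NM, map_sum, mul_sum, sum_mul]
  simp_rw [e]
  have : Fact (Nat.Prime 257) := ⟨by norm_num⟩
  exact Equiv.sum_comp (Equiv.mulLeft₀ (chi s) (chi_ne s)) (fun i => II (T i) * oG (sec s))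

theorem oG_NG (g : GG) : oG g * NG = NG * oG g := by
  rw [eq_incM_sec g, oG_mul, mul_assoc, oG_sec_NG, ← mul_assoc, ← mul_assoc, oG_incM_NG,
    NG_oG_incM]

theorem NG_comm (X : ZG) : X * NG = NG * X := by
  induction X using G_ind with
  | hof g => exact oG_NG g
  | h0 => simp
  | hadd x y hx hy => rw [add_mul, mul_add, hx, hy]
  | hneg x hx => rw [neg_mul, mul_neg, hx]

theorem NG_eq (X : ZG) : NG * X = NG * se (pr X) := by
  induction X using G_ind with
  | hof g =>
    rw [pr_oG, se_oP]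
    conv_lhs => rw [eq_incM_sec g, oG_mul, ← mul_assoc, NG_oG_incM]
  | h0 => simp
  | hadd x y hx hy => rw [mul_add, hx, hy, map_add, map_add, mul_add]
  | hneg x hx => rw [mul_neg, hx, map_neg, map_neg, mul_neg]

theorem coeff_int_mul' {G : Type*} [Group G] (n : ℤ) (f : MonoidAlgebra ℤ G) (j : G) :
    ((n : MonoidAlgebra ℤ G) * f).coeff j = n * f.coeff j := by
  induction n using Int.induction_on with
  | zero => simp
  | succ n ih =>
    rw [Int.cast_add, add_mul, MonoidAlgebra.coeff_add, Finsupp.add_apply, ih, Int.cast_one,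
      one_mul]
    ring
  | pred n ih =>
    rw [Int.cast_sub, sub_mul, MonoidAlgebra.coeff_sub, Finsupp.sub_apply, ih, Int.cast_one,
      one_mul]
    ring

theorem tors_ZP (z : ZP) (h : (257 : ZP) * z = 0) : z = 0 := by
  ext j
  have e : (257 : ZP) = ((257 : ℤ) : ZP) := by norm_num
  rw [e] at h
  have h2 := coeff_int_mul' 257 z j
  rw [h] at h2
  rw [MonoidAlgebra.coeff_zero, Finsupp.zero_apply] at h2 ⊢
  omega

theorem inj_NG (X Y : ZG) (h : X = NG * Y) (h0 : pr X = 0) : X = 0 := by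
  have h1 : (257 : ZP) * pr Y = 0 := by rw [← pr_NG, ← map_mul, ← h, h0]
  rw [h, NG_eq, tors_ZP _ h1, map_zero, mul_zero]

/-- the gluing lemma -/
theorem glue (B B' : ZG) (U U' : ZP) (hU : U * U' = 1) (hU' : U' * U = 1)
    (hUc : ∀ s, oP s * U = U * oP s)
    (c1 c2 : ZG) (h1 : B * B' - 1 = NG * c1) (h2 : B' * B - 1 = NG * c2)
    (z z' : ZP) (hz : pr B - U = 257 * z) (hz' : pr B' - U' = 257 * z') :
    ∃ V V' : ZG, V * V' = 1 ∧ V' * V = 1 ∧ pr V = U ∧
      ∀ g c, oG g * B - B * oG g = NG * c → oG g * V = V * oG g := by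
  refine ⟨B - NG * se z, B' - NG * se z', ?_, ?_, ?_, ?_⟩
  · rw [← sub_eq_zero]
    refine inj_NG _ (c1 - B * se z' - se z * B' + se z * (NG * se z')) ?_ ?_
    · have e1 : NG * (B * se z') = B * (NG * se z') := by
        rw [← mul_assoc, ← NG_comm, mul_assoc]
      have e2 : NG * (c1 - B * se z' - se z * B' + se z * (NG * se z')) =
          (B * B' - 1) - B * (NG * se z') - NG * se z * B' + NG * se z * (NG * se z') := by
        rw [h1, ← e1]; noncomm_ring
      rw [e2]
      noncomm_ring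
    · rw [map_sub, map_mul, map_sub, map_sub, map_mul, map_mul, pr_NG, pr_se, pr_se, map_one,
        ← hz, ← hz', sub_sub_cancel, sub_sub_cancel, hU, sub_self]
  · rw [← sub_eq_zero]
    refine inj_NG _ (c2 - B' * se z - se z' * B + se z' * (NG * se z)) ?_ ?_
    · have e1 : NG * (B' * se z) = B' * (NG * se z) := by
        rw [← mul_assoc, ← NG_comm, mul_assoc]
      have e2 : NG * (c2 - B' * se z - se z' * B + se z' * (NG * se z)) =
          (B' * B - 1) - B' * (NG * se z) - NG * se z' * B + NG * se z' * (NG * se z) := by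
        rw [h2, ← e1]; noncomm_ring
      rw [e2]
      noncomm_ring
    · rw [map_sub, map_mul, map_sub, map_sub, map_mul, map_mul, pr_NG, pr_se, pr_se, map_one,
        ← hz, ← hz', sub_sub_cancel, sub_sub_cancel, hU', sub_self]
  · rw [map_sub, map_mul, pr_NG, pr_se, ← hz, sub_sub_cancel]
  · intro g c hc
    rw [← sub_eq_zero]
    refine inj_NG _ (c - (oG g * se z - se z * oG g)) ?_ ?_
    · have e1 : NG * (oG g * se z) = oG g * (NG * se z) := by
        rw [← mul_assoc, ← NG_comm, mul_assoc]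
      have e2 : NG * (c - (oG g * se z - se z * oG g)) =
          (oG g * B - B * oG g) - oG g * (NG * se z) + NG * se z * oG g := by
        rw [hc, ← e1]; noncomm_ring
      rw [e2]
      noncomm_ring
    · rw [map_sub, map_mul, map_mul, map_sub, map_mul, pr_NG, pr_se, ← hz, sub_sub_cancel, pr_oG,
        hUc, sub_self]

end

end Pool.Agent.Helper321.CU
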