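import Mathlib
import Pool.Agent.Helper321.CU.Ring

set_option autoImplicit false

namespace Pool.Agent.Helper321.CU

open Finset

noncomputable section

/-! ### the quotient of `Z[M × Q]` by the norm of `M` -/

def NR : RR := jM NM

theorem Phi_NR : Phi NR = NG := by rw [NR, Phi_jM, NG]

abbrev RB := RR ⧸ (Ideal.span {NR} : Ideal RR)

def mkR : RR →+* RB := Ideal.Quotient.mk _

theorem mkR_eq_zero (f : RR) : mkR f = 0 ↔ f ∈ Ideal.span {NR} := Ideal.Quotient.eq_zero_iff_mem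

theorem mkR_NR : mkR NR = 0 := by
  rw [mkR_eq_zero]; exact Ideal.subset_span rfl

def hb : OO →+* RB :=
  Ideal.Quotient.lift _ (mkR.comp jM) (by
    intro a ha
    rw [Ideal.mem_span_singleton'] at ha
    obtain ⟨c, rfl⟩ := ha
    have : jM NM = NR := rfl
    rw [RingHom.comp_apply, map_mul, map_mul, this, mkR_NR, mul_zero])

theorem hb_mk (f : ZM) : hb (mk f) = mkR (jM f) := rfl

theorem Phi_of_mkR (r : RR) (h : mkR r = 0) : ∃ c, Phi r = NG * c := by
  rw [mkR_eq_zero, Ideal.mem_span_singleton'] at h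
  obtain ⟨c, rfl⟩ := h
  exact ⟨Phi c, by rw [map_mul, Phi_NR, NG_comm]⟩

def xQ : QM := Multiplicative.ofAdd (0, 1, 0)
def wQ : QM := Multiplicative.ofAdd (0, 0, 1)

def XR : RR := oQ xQ
def WR : RR := oQ wQ

theorem XR4 : XR ^ 4 = 1 := by
  have : xQ ^ 4 = 1 := by decide
  have h : XR ^ 4 = oQ (xQ ^ 4) := (map_pow (MonoidAlgebra.of ℤ QM) xQ 4).symm
  rw [h, this]
  exact map_one _

theorem WR4 : WR ^ 4 = 1 := by
  have : wQ ^ 4 = 1 := by decide
  have h : WR ^ 4 = oQ (wQ ^ 4) := (map_pow (MonoidAlgebra.of ℤ QM) wQ 4).symm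
  rw [h, this]
  exact map_one _

def Thy : RR →+* RR := MonoidAlgebra.mapDomainRingHom ℤ thy
def The : RR →+* RR := MonoidAlgebra.mapDomainRingHom ℤ the

@[simp] theorem Thy_oQ (s : QM) : Thy (oQ s) = oQ (thy s) := by simp [Thy, oQ]
@[simp] theorem The_oQ (s : QM) : The (oQ s) = oQ (the s) := by simp [The, oQ]

theorem Thy_XR : Thy XR = XR * WR ^ 2 := by
  have h : thy xQ = xQ * wQ ^ 2 := by decide
  rw [XR, Thy_oQ, h, oQ_mul]
  congr 1
  exact map_pow (MonoidAlgebra.of ℤ QM) wQ 2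

theorem Thy_WR : Thy WR = WR := by
  have h : thy wQ = wQ := by decide
  rw [WR, Thy_oQ, h]

theorem The_XR : The XR = XR := by
  have h : the xQ = xQ := by decide
  rw [XR, The_oQ, h]

theorem The_WR : The WR = WR := by
  have h : the wQ = wQ := by decide
  rw [WR, The_oQ, h]

theorem Thy_jM (f : ZM) : Thy (jM f) = jM (sig 60 f) := by
  induction f using zm_induction with
  | hT i =>
    rw [jM_T, Thy_oQ, sig_T, jM_T]
    congr 1
  | h0 => simp
  | hadd x y hx hy => simp only [map_add, hx, hy]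
  | hneg x hx => simp only [map_neg, hx]

theorem The_jM (f : ZM) : The (jM f) = jM (sig (-1) f) := by
  induction f using zm_induction with
  | hT i =>
    rw [jM_T, The_oQ, sig_T, jM_T]
    congr 1
  | h0 => simp
  | hadd x y hx hy => simp only [map_add, hx, hy]
  | hneg x hx => simp only [map_neg, hx]

theorem y_Phi (r : RR) : oG (sec yP) * Phi r = Phi (Thy r) * oG (sec yP) := by
  induction r using Q_ind with
  | hof s => rw [Phi_oQ, Thy_oQ, Phi_oQ, ← oG_mul, ← oG_mul, yP_fQ]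
  | h0 => simp
  | hadd x y hx hy => simp only [map_add, mul_add, add_mul, hx, hy]
  | hneg x hx => simp only [map_neg, mul_neg, neg_mul, hx]

theorem e_Phi (r : RR) : oG (sec eP) * Phi r = Phi (The r) * oG (sec eP) := by
  induction r using Q_ind with
  | hof s => rw [Phi_oQ, The_oQ, Phi_oQ, ← oG_mul, ← oG_mul, eP_fQ]
  | h0 => simp
  | hadd x y hx hy => simp only [map_add, mul_add, add_mul, hx, hy]
  | hneg x hx => simp only [map_neg, mul_neg, neg_mul, hx]

theorem w_Phi (r : RR) : oG (sec wP) * Phi r = Phi r * oG (sec wP) := by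
  induction r using Q_ind with
  | hof s => rw [Phi_oQ, ← oG_mul, ← oG_mul, wP_fQ]
  | h0 => simp
  | hadd x y hx hy => simp only [map_add, mul_add, add_mul, hx, hy]
  | hneg x hx => simp only [map_neg, mul_neg, neg_mul, hx]

theorem m_Phi (i : MM) (r : RR) : oG (incM i) * Phi r = Phi r * oG (incM i) := by
  rw [← fQ_inQ, ← Phi_oQ, ← map_mul, ← map_mul, mul_comm]

theorem comm_mod (g : GG) (Th : RR →+* RR) (hTh : ∀ r, oG g * Phi r = Phi (Th r) * oG g)
    (r : RR) (h : mkR (Th r) = mkR r) : ∃ c, oG g * Phi r - Phi r * oG g = NG * c := by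
  have h0 : mkR (Th r - r) = 0 := by rw [map_sub, h, sub_self]
  obtain ⟨c, hc⟩ := Phi_of_mkR _ h0
  refine ⟨c * oG g, ?_⟩
  rw [hTh, ← sub_mul, ← map_sub, hc, mul_assoc]

/-! ### the unit of `Z[P]` -/

def EA : SS := oA (Multiplicative.ofAdd (1, 0, 0))
def WA : SS := oA (Multiplicative.ofAdd (0, 1, 0))
def TA : SS := oA (Multiplicative.ofAdd (0, 0, 1))

theorem oA_pow (g : AM) (n : ℕ) : oA g ^ n = oA (g ^ n) :=
  (map_pow (MonoidAlgebra.of ℤ AM) g n).symm

theorem oA_one : oA 1 = 1 := map_one _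

theorem EA2 : EA ^ 2 = 1 := by
  rw [EA, oA_pow, ← oA_one]; congr 1

theorem WA4 : WA ^ 4 = 1 := by
  rw [WA, oA_pow, ← oA_one]; congr 1

theorem TA32 : TA ^ 32 = 1 := by
  rw [TA, oA_pow, ← oA_one]; congr 1

def KA : SS := TA ^ 8

theorem KA4 : KA ^ 4 = 1 := by
  rw [KA, ← pow_mul, TA32]

def c1 : ℤ := 393146012008229658338304
def c2 : ℤ := 277996211087467034484528
def c3 : ℤ := 196573006004114829169152
def c4 : ℤ := 138998105543733517242264

def s1 : SS := sfun EA WA KA (TA ^ 2 + TA ^ 30) (TA ^ 4 + TA ^ 28) (c1 : SS) (c2 : SS)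
  (c3 : SS) (c4 : SS)

def s1' : SS := sfun EA WA KA (TA ^ 2 + TA ^ 30) (TA ^ 4 + TA ^ 28) (c1 : SS) (-(c2 : SS))
  (c3 : SS) (-(c4 : SS))

theorem s1_mul : s1 * s1' = 1 := by
  refine sfun_mul _ _ _ _ _ _ _ _ _ EA2 WA4 KA4 (al_sq TA TA32) (be_sq EA WA TA TA32) ?_ ?_
  · have : 2 * c1 + 4 * c1 ^ 2 - 8 * c2 ^ 2 = 0 := by norm_num [c1, c2]
    exact_mod_cast congrArg (Int.cast : ℤ → SS) this
  · have : 2 * c3 + 8 * c3 ^ 2 - 16 * c4 ^ 2 = 0 := by norm_num [c3, c4]
    exact_mod_cast congrArg (Int.cast : ℤ → SS) this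

def u1 : SS := KA * s1
def u1' : SS := KA ^ 3 * s1'

theorem u1_mul : u1 * u1' = 1 := by
  have := s1_mul
  have h := KA4
  rw [u1, u1']
  linear_combination KA ^ 4 * this + h

def Ay : SS →+* SS := MonoidAlgebra.mapDomainRingHom ℤ ay

@[simp] theorem Ay_oA (s : AM) : Ay (oA s) = oA (ay s) := by simp [Ay, oA]

theorem Ay_EA : Ay EA = EA * WA ^ 2 := by
  rw [EA, WA, Ay_oA, oA_pow, ← oA_mul]; congr 1

theorem Ay_WA : Ay WA = WA := by
  rw [WA, Ay_oA]; congr 1

theorem Ay_TA : Ay TA = TA := by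
  rw [TA, Ay_oA]; congr 1

theorem Ay_u1 : Ay u1 = u1 := by
  have hK : Ay KA = KA := by rw [KA, map_pow, Ay_TA]
  rw [u1, map_mul, hK, s1, map_sfun, Ay_EA, Ay_WA, hK]
  simp only [map_add, map_pow, Ay_TA, map_intCast]
  rw [sfun_twist _ _ _ _ _ _ _ _ _ WA4]

theorem y_Phi1 (r : SS) : oP yP * Phi1 r = Phi1 (Ay r) * oP yP := by
  induction r using A_ind with
  | hof s => rw [Phi1_oA, Ay_oA, Phi1_oA, ← oP_mul, ← oP_mul, yP_fA]
  | h0 => simp
  | hadd x y hx hy => simp only [map_add, mul_add, add_mul, hx, hy]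
  | hneg x hx => simp only [map_neg, mul_neg, neg_mul, hx]

def U1 : ZP := Phi1 u1
def U1' : ZP := Phi1 u1'

theorem U1_mul : U1 * U1' = 1 := by rw [U1, U1', ← map_mul, u1_mul, map_one]
theorem U1'_mul : U1' * U1 = 1 := by rw [U1, U1', ← map_mul, mul_comm, u1_mul, map_one]

theorem oP_pow (g : PP) (n : ℕ) : oP (g ^ n) = oP g ^ n := map_pow (MonoidAlgebra.of ℤ PP) g n
theorem oG_pow (g : GG) (n : ℕ) : oG (g ^ n) = oG g ^ n := map_pow (MonoidAlgebra.of ℤ GG) g n

theorem U1_central (s : PP) : oP s * U1 = U1 * oP s := by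
  have he : Commute (oP eP) U1 := by
    have : oP eP = Phi1 EA := by rw [EA, Phi1_oA]; congr 1
    rw [this]
    show _ = _
    rw [U1, ← map_mul, mul_comm, map_mul]
  have hw : Commute (oP wP) U1 := by
    have : oP wP = Phi1 WA := by rw [WA, Phi1_oA]; congr 1
    rw [this]
    show _ = _
    rw [U1, ← map_mul, mul_comm, map_mul]
  have hy : Commute (oP yP) U1 := by
    show _ = _
    rw [U1, y_Phi1, Ay_u1]
  have h : Commute (oP s) U1 := by
    rw [PP_eq s, oP_mul, oP_mul, oP_pow, oP_pow, oP_pow]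
    exact ((he.pow_left _).mul_left (hw.pow_left _)).mul_left (hy.pow_left _)
  exact h

/-! ### star -/

def phG : ZG →ₗ[ℤ] ZG := MonoidAlgebra.mapDomainLinearMap ℤ ℤ (fun g : GG => g⁻¹)
def phP : ZP →ₗ[ℤ] ZP := MonoidAlgebra.mapDomainLinearMap ℤ ℤ (fun g : PP => g⁻¹)

theorem phG_oG (g : GG) : phG (oG g) = oG g⁻¹ := by simp [phG, oG]
theorem phP_oP (g : PP) : phP (oP g) = oP g⁻¹ := by simp [phP, oP]

theorem pr_phG (X : ZG) : pr (phG X) = phP (pr X) := by
  induction X using G_ind with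
  | hof g => rw [phG_oG, pr_oG, pr_oG, phP_oP, map_inv]
  | h0 => simp
  | hadd x y hx hy => simp only [map_add, hx, hy]
  | hneg x hx => simp only [map_neg, hx]

theorem phG_mul (g : GG) (X : ZG) : phG (oG g * X) = phG X * oG g⁻¹ := by
  induction X using G_ind with
  | hof h => rw [← oG_mul, phG_oG, phG_oG, ← oG_mul, mul_inv_rev]
  | h0 => simp
  | hadd x y hx hy => rw [mul_add, map_add, hx, hy, map_add, add_mul]
  | hneg x hx => rw [mul_neg, map_neg, hx, map_neg, neg_mul]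

def InvA : SS →+* SS := MonoidAlgebra.mapDomainRingHom ℤ (invMonoidHom : AM →* AM)

@[simp] theorem InvA_oA (s : AM) : InvA (oA s) = oA s⁻¹ := by simp [InvA, oA]

theorem phP_Phi1 (X : SS) : phP (Phi1 X) = Phi1 (InvA X) := by
  induction X using A_ind with
  | hof g => rw [InvA_oA, Phi1_oA, Phi1_oA, phP_oP, map_inv]
  | h0 => simp
  | hadd x y hx hy => simp only [map_add, hx, hy]
  | hneg x hx => simp only [map_neg, hx]

theorem InvA_EA : InvA EA = EA := by
  rw [EA, InvA_oA]; congr 1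

theorem InvA_WA : InvA WA = WA ^ 3 := by
  rw [WA, InvA_oA, oA_pow]; congr 1

theorem InvA_TA_pow (n m : ℕ) (h : n + m = 32) : InvA (TA ^ n) = TA ^ m := by
  rw [TA, oA_pow, oA_pow, InvA_oA]
  congr 1
  rw [inv_eq_iff_mul_eq_one, ← pow_add, h]
  decide

theorem InvA_u1 : InvA u1 = KA ^ 2 * u1 := by
  have hK : InvA KA = KA ^ 3 := by
    rw [KA, InvA_TA_pow 8 24 rfl, ← pow_mul]
  rw [u1, map_mul, s1, map_sfun, InvA_EA, InvA_WA, map_add, map_add, hK,
    InvA_TA_pow 2 30 rfl, InvA_TA_pow 30 2 rfl, InvA_TA_pow 4 28 rfl, InvA_TA_pow 28 4 rfl,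
    sfun_star _ _ _ _ _ _ _ _ _ WA4 KA4, add_comm (TA ^ 30), add_comm (TA ^ 28)]
  simp only [map_intCast]
  ring

def gP : PP := ⟨0, 0, 32⟩

theorem phP_U1 : phP U1 = oP gP * U1 := by
  rw [U1, phP_Phi1, InvA_u1, map_mul]
  congr 1
  rw [KA, TA, oA_pow, oA_pow, Phi1_oA]
  congr 1

/-! ### congruence modulo 257 -/

abbrev SB := SS ⧸ (Ideal.span {(257 : SS)} : Ideal SS)

def mkS : SS →+* SB := Ideal.Quotient.mk _

theorem mkS_eq_zero (f : SS) : mkS f = 0 ↔ f ∈ Ideal.span {(257 : SS)} :=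
  Ideal.Quotient.eq_zero_iff_mem

theorem mkS_257 : (257 : SB) = 0 := by
  have : mkS 257 = 0 := by rw [mkS_eq_zero]; exact Ideal.subset_span rfl
  rw [← this, map_ofNat]

theorem cast_SB (n m : ℤ) (h : (n : ZMod 257) = (m : ZMod 257)) : (n : SB) = (m : SB) := by
  rw [ZMod.intCast_eq_intCast_iff_dvd_sub] at h
  obtain ⟨k, hk⟩ := h
  have : m = n + 257 * k := by push_cast at hk; linarith
  rw [this, Int.cast_add, Int.cast_mul]
  have e : ((257 : ℤ) : SB) = 0 := by rw [← mkS_257]; norm_num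
  rw [e, zero_mul, add_zero]

theorem psi_XR : psi XR = EA * KA := by
  rw [XR, psi_oQ, EA, KA, TA, oA_pow, ← oA_mul]; congr 1

theorem psi_WR : psi WR = WA := by
  rw [WR, psi_oQ, WA]; congr 1

theorem congr_u1 (fa fm fh : ZM) (ha : 2 * ep (mk fa) = -1) (hm : 4 * ep (mk fm) = 1)
    (hh : 4 * ep (mk fh) = -1) :
    mkS (psi (bfun XR WR (jM fa) (jM fm) (jM fh))) = mkS u1 := by
  have h257 : (257 : ZMod 257) = 0 := by decide
  rw [map_bfun, psi_XR, psi_WR, psi_jM, psi_jM, psi_jM, map_bfun, map_intCast, map_intCast,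
    map_intCast]
  have ha' : ((aug fa : ℤ) : ZMod 257) = ((-129 : ℤ) : ZMod 257) := by
    rw [ep_mk] at ha
    push_cast
    linear_combination 129 * ha - (aug fa : ZMod 257) * h257
  have hm' : ((aug fm : ℤ) : ZMod 257) = ((129 ^ 2 : ℤ) : ZMod 257) := by
    rw [ep_mk] at hm
    push_cast
    linear_combination 129 ^ 2 * hm - 259 * (aug fm : ZMod 257) * h257
  have hh' : ((aug fh : ℤ) : ZMod 257) = ((-129 ^ 2 : ℤ) : ZMod 257) := by
    rw [ep_mk] at hh
    push_cast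
    linear_combination 129 ^ 2 * hh - 259 * (aug fh : ZMod 257) * h257
  rw [cast_SB _ _ ha', cast_SB _ _ hm', cast_SB _ _ hh']
  have e1 : ((c1 : ℤ) : SB) = ((-129 : ℤ) : SB) := cast_SB _ _ (by decide)
  have e2 : ((c2 : ℤ) : SB) = ((0 : ℤ) : SB) := cast_SB _ _ (by decide)
  have e3 : ((c3 : ℤ) : SB) = ((-129 ^ 2 : ℤ) : SB) := cast_SB _ _ (by decide)
  have e4 : ((c4 : ℤ) : SB) = ((0 : ℤ) : SB) := cast_SB _ _ (by decide)
  rw [map_mul, u1, map_mul, s1, map_sfun, map_intCast, map_intCast, map_intCast, map_intCast,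
    e1, e2, e3, e4]
  have hE : mkS EA ^ 2 = 1 := by rw [← map_pow, EA2, map_one]
  have hW : mkS WA ^ 4 = 1 := by rw [← map_pow, WA4, map_one]
  have hK : mkS KA ^ 4 = 1 := by rw [← map_pow, KA4, map_one]
  have hr : 2 * (129 : SB) = 1 := by linear_combination mkS_257
  have key := congr_key (mkS EA) (mkS WA) (mkS KA) (mkS (TA ^ 2 + TA ^ 30))
    (mkS (TA ^ 4 + TA ^ 28)) 129 hE hW hK hr
  have f1 : ((-129 : ℤ) : SB) = -129 := by norm_num
  have f2 : ((129 ^ 2 : ℤ) : SB) = 129 ^ 2 := by norm_num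
  have f3 : ((-129 ^ 2 : ℤ) : SB) = -129 ^ 2 := by norm_num
  rw [f1, f2, f3, Int.cast_zero]
  exact key

/-! ### the lift -/

theorem exists_unit : ∃ V V' : ZG, V * V' = 1 ∧ V' * V = 1 ∧ pr V = U1 ∧
    ∀ g, oG g * V = V * oG g := by
  obtain ⟨a, m, h, a', m', h', r1, r2, r3, sa, sm, sh, na, nm, nh, ea, em, eh⟩ := OO_main
  obtain ⟨fa, rfl⟩ := mk_surj a
  obtain ⟨fm, rfl⟩ := mk_surj m
  obtain ⟨fh, rfl⟩ := mk_surj h
  obtain ⟨fa', rfl⟩ := mk_surj a'
  obtain ⟨fm', rfl⟩ := mk_surj m'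
  obtain ⟨fh', rfl⟩ := mk_surj h'
  obtain ⟨b, hb1⟩ : ∃ b, b = bfun XR WR (jM fa) (jM fm) (jM fh) := ⟨_, rfl⟩
  obtain ⟨b', hb1'⟩ : ∃ b', b' = bfun' XR WR (jM fa') (jM fm') (jM fh') := ⟨_, rfl⟩
  have hX4 : mkR XR ^ 4 = 1 := by rw [← map_pow, XR4, map_one]
  have hW4 : mkR WR ^ 4 = 1 := by rw [← map_pow, WR4, map_one]
  have hbb : mkR (b * b' - 1) = 0 := by
    rw [map_sub, map_mul, hb1, hb1', map_bfun, map_bfun', map_one, ← hb_mk, ← hb_mk, ← hb_mk,
      ← hb_mk, ← hb_mk, ← hb_mk, bfun_mul, sub_self]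
    · exact hX4
    · exact hW4
    · have := congrArg hb r1
      simpa only [map_add, map_mul, map_ofNat, map_zero] using this
    · have := congrArg hb r2
      simpa only [map_add, map_mul, map_ofNat, map_zero] using this
    · have := congrArg hb r3
      simpa only [map_add, map_mul, map_ofNat, map_zero] using this
  have hty : mkR (Thy b) = mkR b := by
    rw [hb1, map_bfun, Thy_XR, Thy_WR, Thy_jM, Thy_jM, Thy_jM, map_bfun, map_bfun, map_mul,
      map_pow, ← hb_mk, ← hb_mk, ← hb_mk, ← hb_mk, ← hb_mk, ← hb_mk, ← sg_mk 60 sixty_ne,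
      ← sg_mk 60 sixty_ne, ← sg_mk 60 sixty_ne, sa, sm, sh, map_sub, map_neg, map_one]
    exact bfun_twist _ _ _ _ _ hW4
  have hte : mkR (The b) = mkR b := by
    rw [hb1, map_bfun, The_XR, The_WR, The_jM, The_jM, The_jM, map_bfun, map_bfun,
      ← hb_mk, ← hb_mk, ← hb_mk, ← hb_mk, ← hb_mk, ← hb_mk, ← sg_mk (-1) neg_one_ne,
      ← sg_mk (-1) neg_one_ne, ← sg_mk (-1) neg_one_ne, na, nm, nh]
  obtain ⟨cc, hcc⟩ := Phi_of_mkR _ hbb
  -- the congruence
  have hmk : mkS (psi b - u1) = 0 := by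
    rw [map_sub, hb1, congr_u1 fa fm fh ea em eh, sub_self]
  rw [mkS_eq_zero, Ideal.mem_span_singleton'] at hmk
  obtain ⟨z, hz⟩ := hmk
  have hz1 : pr (Phi b) - U1 = 257 * Phi1 z := by
    rw [pr_Phi, U1, ← map_sub, ← hz, map_mul, map_ofNat]
    have : Phi1 z * 257 = 257 * Phi1 z := by
      rw [← map_ofNat Phi1 257, ← map_mul, ← map_mul, mul_comm]
    exact this
  have hbb2 : psi b * psi b' = 1 + (psi (b * b' - 1)) := by
    rw [map_sub, map_mul, map_one]; ring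
  have hmem : ∃ d, psi (b * b' - 1) = 257 * d := by
    rw [mkR_eq_zero, Ideal.mem_span_singleton'] at hbb
    obtain ⟨c, hc⟩ := hbb
    refine ⟨psi c, ?_⟩
    rw [← hc, map_mul, NR, psi_jM, aug_NM]
    push_cast
    ring
  obtain ⟨d, hd⟩ := hmem
  rw [hd] at hbb2
  have hz2 : ∃ z', psi b' - u1' = 257 * z' := by
    refine ⟨u1' * (d - z * psi b'), ?_⟩
    have := u1_mul
    linear_combination u1' * hbb2 + u1' * psi b' * hz - psi b' * this
  obtain ⟨z', hz'⟩ := hz2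
  have hz1' : pr (Phi b') - U1' = 257 * Phi1 z' := by
    rw [pr_Phi, U1', ← map_sub, hz', map_mul, map_ofNat]
  obtain ⟨V, V', v1, v2, v3, v4⟩ := glue (Phi b) (Phi b') U1 U1' U1_mul U1'_mul U1_central cc cc
    (by rw [← hcc, map_sub, map_mul, map_one])
    (by rw [← hcc, map_sub, mul_comm b b', map_mul, map_one]) (Phi1 z) (Phi1 z') hz1 hz1'
  refine ⟨V, V', v1, v2, v3, ?_⟩
  have ky : Commute (oG (sec yP)) V := by
    obtain ⟨c, hc⟩ := comm_mod (sec yP) Thy y_Phi b hty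
    exact v4 _ c hc
  have ke : Commute (oG (sec eP)) V := by
    obtain ⟨c, hc⟩ := comm_mod (sec eP) The e_Phi b hte
    exact v4 _ c hc
  have kw : Commute (oG (sec wP)) V :=
    v4 _ 0 (by rw [w_Phi, sub_self, mul_zero])
  have km : ∀ i, Commute (oG (incM i)) V := fun i =>
    v4 _ 0 (by rw [m_Phi, sub_self, mul_zero])
  intro g
  have : Commute (oG g) V := by
    rw [eq_incM_sec g, PP_eq (prj g), map_mul, map_mul, map_pow, map_pow, map_pow, oG_mul, oG_mul,
      oG_mul, oG_pow, oG_pow, oG_pow]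
    exact (km _).mul_left (((ke.pow_left _).mul_left (kw.pow_left _)).mul_left (ky.pow_left _))
  exact this

theorem oP_inj {s t : PP} (h : oP s = oP t) : s = t := MonoidAlgebra.of_injective h

theorem no_root (c : ZMod 64) (h : -c + -c = 32) : rt c ≠ 1 := by
  revert c; decide +kernel

theorem center_contra (g : GG) (hg : g ∈ Subgroup.center GG)
    (h : gP = prj (g⁻¹ * g⁻¹)) : False := by
  rw [Subgroup.mem_center_iff] at hg
  have h1 := hg (sec yP)
  have h2 := hg (incM (Multiplicative.ofAdd 1))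
  have hb := congrArg (fun s : GG => s.q.b) h1
  have hm := congrArg (fun s : GG => s.m) h2
  have hc := congrArg (fun s : PP => s.c) h
  have par1 : par 1 = 1 := by decide
  simp [sec, yP, par1] at hb
  simp [incM] at hm
  simp [prj, gP] at hc
  have ha : g.q.a = 0 := by
    have : ∀ a : ZMod 2, dbl a = 0 → a = 0 := by decide
    exact this _ hb
  have hchi : chi g.q = 1 := by linear_combination -hm
  have hrt : chi g.q = rt g.q.c := by
    show sgn g.q.a * rt g.q.c = _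
    rw [ha]
    have : sgn 0 = 1 := by decide
    rw [this, one_mul]
  exact no_root g.q.c hc.symm (by rw [← hrt, hchi])

theorem final_contra (V : ZG) {V' : ZG} (_v1 : V * V' = 1) (_v2 : V' * V = 1) (v3 : pr V = U1)
    (g : GG) (hg : g ∈ Subgroup.center GG) (v : ZG) (hv1 : ∀ x : ZG, x * v = v * x)
    (hv2 : phG v = v) (hv3 : V = oG g * v) : False := by
  have e1 : v = oG g⁻¹ * V := by
    rw [hv3, ← mul_assoc, ← oG_mul, inv_mul_cancel]
    have : oG 1 = 1 := map_one _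
    rw [this, one_mul]
  have e2 : phG V = oG (g⁻¹ * g⁻¹) * V := by
    rw [oG_mul, mul_assoc, ← e1]
    conv_lhs => rw [hv3]
    rw [phG_mul, hv2, hv1]
  have e3 : phP U1 = oP (prj (g⁻¹ * g⁻¹)) * U1 := by
    rw [← v3, ← pr_phG, e2, map_mul, pr_oG]
  rw [phP_U1] at e3
  have e4 : oP gP = oP (prj (g⁻¹ * g⁻¹)) := by
    have := congrArg (fun t => t * U1') e3
    simpa only [mul_assoc, U1_mul, mul_one] using this
  exact center_contra g hg (oP_inj e4)

end

end Pool.Agent.Helper321.CU
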